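import Pool.Agent.Y692.FK.Unc

/-!
# MP_9a92d3_gt: one complex, continuum many limits of the normalised torsion sums
-/

open scoped Topology

open Pool.Agent.Helper993.HeisDet Pool.Agent.Helper993.Delta

namespace Pool.Agent.Results.MP_9a92d3_gt.ContinuumManyLimits

/-- There is a finite `Δ`-complex `X` of dimension at most three with one vertex whose fundamental group is
the integral Heisenberg group and whose universal covering is det-`L²`-acyclic, such that the
limits of the normalised alternating sums of the `log |tors H_n(X̃/N i; ℤ)|` along the finite index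
normal chains `(N i)` of `π_1(X)` for which the limit exists form a set with the cardinality of the
continuum. -/
theorem result : ∃ X : OneVertex, X.dim = 3 ∧ Nonempty (X.pi1 ≃* Heis ℤ) ∧ X.DetL2Acyclic ∧
    Cardinal.mk {L : ℝ | ∃ (N : ℕ → Subgroup X.pi1) (_ : ∀ i, (N i).Normal),
      (∀ i, (N i).FiniteIndex) ∧ N 0 = ⊤ ∧ Antitone N ∧ ⨅ i, N i = ⊥ ∧
      Filter.Tendsto (fun i => X.torsionSum (N i)) Filter.atTop (𝓝 L)} = Cardinal.continuum := by
  obtain ⟨b, hb⟩ := Pool.Agent.Y692.FKC.exists_continuum
  refine ⟨Pool.Agent.Helper993.Cpx.cpx b, rfl, ⟨Pool.Agent.Helper993.Cpx.phi b⟩,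
    Pool.Agent.Helper993.Cpx.acyclic b, le_antisymm ?_ ?_⟩
  · exact (Cardinal.mk_set_le _).trans Cardinal.mk_real.le
  · rw [← hb]
    refine Cardinal.mk_le_mk_of_subset ?_
    rintro L ⟨C, hC⟩
    exact ⟨C.sub, C.normal, C.finiteIndex, C.zero, C.strictAnti.antitone, C.iInf_eq_bot, hC⟩

end Pool.Agent.Results.MP_9a92d3_gt.ContinuumManyLimits
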